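import Mathlib
import Pool.Agent.L7h72.KT.Avg
import Pool.Agent.L7h72.KT.Bnd
import Pool.Agent.L7h82.KT.Fin
import Pool.Agent.L7h82.KT.Parts
import Pool.Agent.L7h50.KT.Ser
import Pool.Agent.L7h50.KT.Upp
import Pool.Agent.TH891.SG.Cnt4

set_option autoImplicit false

/-!
# The sharp lower half of the Hardy-Littlewood formula over the subsets of every sparse set of shifts

Let `k ≥ 2`. For every `B` and `U`, all large `x`, every precision `(log x)^(-U) ≤ δ ≤ 1` and EVERY set `A` of at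
least `C log x / δ` integers in `[0, (log x)^B]`, the number of prime `k`-tuples `m + d`, `d ∈ D`, `m ≤ x`, summed over
all `k`-element subsets `D` of `A`, is at least `1 - δ` times the Hardy-Littlewood prediction; the predictions are
`≥ c` on average, and the subsets `D` for which the number of prime tuples is at least `1 - δ` times the prediction
carry at least `c δ` of the sum of the predictions; there are at least `c δ |A|^k / ((B + 1) log log x)^(k - 1)` of them.
-/

namespace Pool.Agent.L7h72.Old.SparseSetsSharpLowerHalf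

open Finset Pool.Agent.H387R2 Pool.Agent.TH891.SG Pool.Agent.L7h72.KT

/-- The singular series `∏_p (1 - 1/p)^(-|S|) (1 - ν_S(p)/p)` of a finite set `S` of shifts, where
`ν_S(p)` is the number of residue classes modulo `p` that `S` meets. -/
noncomputable def sing (S : Finset ℕ) : ℝ :=
  ∏' p : Nat.Primes, (((1 - 1 / ((p : ℕ) : ℝ))⁻¹) ^ S.card *
    (1 - ((S.image (fun d : ℕ => (d : ZMod (p : ℕ)))).card : ℝ) / ((p : ℕ) : ℝ)))

/-- The number of integers `1 ≤ m ≤ x` such that all `m + d`, `d ∈ S`, are prime. -/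
noncomputable def tupleCount (x : ℝ) (S : Finset ℕ) : ℕ :=
  ((Icc 1 ⌊x⌋₊).filter (fun m => ∀ d ∈ S, Nat.Prime (m + d))).card

open Classical in
/-- The `k`-element subsets `D` of `A` with `𝔖(D) > 0` for which the number of the prime tuples is at least `1 - δ`
times the prediction `𝔖(D) x / (log x)^k`. -/
noncomputable def goodSubsets (k : ℕ) (x δ : ℝ) (A : Finset ℕ) : Finset (Finset ℕ) :=
  (A.powersetCard k).filter (fun D =>
    0 < sing D ∧ (1 - δ) * (sing D * x / Real.log x ^ k) ≤ (tupleCount x D : ℝ))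

lemma sing_eq (S : Finset ℕ) : sing S = Uni.CT S := by
  unfold sing Uni.CT
  apply tprod_congr
  intro p
  unfold Uni.locT
  rw [nuT_zmod S p.2.pos, inv_pow, inv_mul_eq_div]

/-- For every `k ≥ 2` there is `c > 0` such that for all `B`, `U` there is `X` such that for all `x ≥ X`, all `δ` with
`(log x)^(-U) ≤ δ ≤ 1` and every set `A` of integers in `[0, (log x)^B]` with `log x ≤ c δ |A|`:

(1) the numbers of prime tuples, summed over all `k`-element subsets `D` of `A`, are at least `1 - δ` times the sum of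
the predictions `𝔖(D) x / (log x)^k`;

(2) the sum of `𝔖(D)` over these `D` is at least `c |A|^k`;

(3) those `D` for which the number of prime tuples is at least `1 - δ` times the prediction carry at least `c δ` of the
sum of `𝔖(D)`;

(4) there are at least `c δ |A|^k / ((B + 1) log log x)^(k - 1)` such `D`. -/
theorem result (k : ℕ) (hk : 2 ≤ k) :
    ∃ c : ℝ, 0 < c ∧ ∀ B U : ℕ, ∃ X : ℝ, ∀ x : ℝ, X ≤ x → ∀ δ : ℝ, (Real.log x ^ U)⁻¹ ≤ δ → δ ≤ 1 →
      ∀ A : Finset ℕ, (∀ a ∈ A, (a : ℝ) ≤ Real.log x ^ B) → Real.log x ≤ c * δ * A.card →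
        (1 - δ) * ∑ D ∈ A.powersetCard k, sing D * x / Real.log x ^ k ≤
          ∑ D ∈ A.powersetCard k, (tupleCount x D : ℝ) ∧
        c * (A.card : ℝ) ^ k ≤ ∑ D ∈ A.powersetCard k, sing D ∧
        c * δ * ∑ D ∈ A.powersetCard k, sing D ≤ ∑ D ∈ goodSubsets k x δ A, sing D ∧
        c * δ * (A.card : ℝ) ^ k / ((B + 1) * Real.log (Real.log x)) ^ (k - 1) ≤ ((goodSubsets k x δ A).card : ℝ) := by
  classical
  obtain ⟨c, hc, h⟩ := Pool.Agent.L7h82.KT.s_FIN
    (s_AVG Pool.Agent.L7h82.KT.s_BIN Pool.Agent.L7h82.KT.s_FAC Pool.Agent.L7h50.KT.s_SER)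
    Pool.Agent.L7h50.KT.s_UPP k hk
  obtain ⟨C, hC, hb⟩ := bnd k (by omega)
  have hCk : 0 < C ^ (k - 1) := by positivity
  obtain ⟨c', hc'⟩ : ∃ c', c' = min c (c ^ 2 / C ^ (k - 1)) := ⟨_, rfl⟩
  have hc'0 : 0 < c' := by rw [hc']; exact lt_min hc (by positivity)
  have hc'1 : c' ≤ c := by rw [hc']; exact min_le_left _ _
  have hc'2 : c' ≤ c ^ 2 / C ^ (k - 1) := by rw [hc']; exact min_le_right _ _
  refine ⟨c', hc'0, fun B U => ?_⟩
  obtain ⟨X, hX⟩ := h B U
  obtain ⟨Y, hY⟩ := hb B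
  refine ⟨max (max X Y) 16, fun x hx δ hδU hδ1 A hA hAc => ?_⟩
  have hx16 : (16 : ℝ) ≤ x := le_trans (le_max_right _ _) hx
  have hx' := le_trans (le_max_left _ _) hx
  have hl1 : 1 < Real.log x := by
    rw [Real.lt_log_iff_exp_lt (by linarith)]
    have := Real.exp_one_lt_d9
    linarith
  have hl : 0 < Real.log x := by linarith
  have hll : 0 < Real.log (Real.log x) := Real.log_pos hl1
  have hlk : 0 < Real.log x ^ k := by positivity
  have hlU : 0 < Real.log x ^ U := by positivity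
  have hδ0 : 0 < δ := lt_of_lt_of_le (inv_pos.2 hlU) hδU
  have hδ : 1 ≤ δ * Real.log x ^ U := by
    rw [inv_le_iff_one_le_mul₀ hlU] at hδU
    exact hδU
  have hA0 : (0 : ℝ) ≤ A.card := Nat.cast_nonneg _
  have hAc' : Real.log x ≤ c * δ * A.card := by
    refine hAc.trans ?_
    gcongr
  obtain ⟨r1, r2, r3⟩ := hX x (le_trans (le_max_left _ _) hx') δ hδ0 hδ hδ1 A hA hAc'
  have htc : ∀ D, tupleCount x D = tc x D := fun D => rfl
  have hS0 : 0 ≤ ∑ D ∈ A.powersetCard k, Uni.CT D := sum_nonneg fun D _ => Uni.CT_nonneg D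
  have eg : ∑ D ∈ (A.powersetCard k).filter
        (fun D => 0 < Uni.CT D ∧ (1 - δ) * (Uni.CT D * x) ≤ Real.log x ^ k * (tc x D : ℝ)), Uni.CT D =
      ∑ D ∈ goodSubsets k x δ A, Uni.CT D := by
    apply sum_congr _ fun _ _ => rfl
    unfold goodSubsets
    apply filter_congr
    intro D _
    rw [sing_eq, htc]
    apply and_congr_right
    intro _
    rw [← mul_div_assoc, div_le_iff₀ hlk, mul_comm (Real.log x ^ k)]
  rw [eg] at r3
  refine ⟨?_, ?_, ?_, ?_⟩
  · have e : (1 - δ) * ∑ D ∈ A.powersetCard k, sing D * x / Real.log x ^ k =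
        ((1 - δ) * x * ∑ D ∈ A.powersetCard k, Uni.CT D) / Real.log x ^ k := by
      rw [mul_sum, mul_sum, sum_div]
      apply sum_congr rfl
      intro D _
      rw [sing_eq]
      ring
    rw [e, div_le_iff₀ hlk]
    simp_rw [htc]
    linarith
  · simp_rw [sing_eq]
    refine le_trans ?_ r2
    gcongr
  · simp_rw [sing_eq]
    refine le_trans ?_ r3
    gcongr
  · obtain ⟨M, hM⟩ : ∃ M, M = ((B : ℝ) + 1) * Real.log (Real.log x) := ⟨_, rfl⟩
    have hM0 : 0 < M := by rw [hM]; positivity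
    have hMk : 0 < M ^ (k - 1) := by positivity
    have q1 : ∑ D ∈ goodSubsets k x δ A, Uni.CT D ≤ ((goodSubsets k x δ A).card : ℝ) * (C ^ (k - 1) * M ^ (k - 1)) := by
      rw [← nsmul_eq_mul]
      apply sum_le_card_nsmul
      intro D hD
      unfold goodSubsets at hD
      rw [mem_filter, mem_powersetCard] at hD
      refine (hY x (le_trans (le_max_right _ _) hx') D hD.1.2 (fun d hd => hA d (hD.1.1 hd))).trans (le_of_eq ?_)
      rw [← mul_pow, hM]
      ring
    have q2 : c * δ * (c * (A.card : ℝ) ^ k) ≤ c * δ * ∑ D ∈ A.powersetCard k, Uni.CT D :=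
      mul_le_mul_of_nonneg_left r2 (by positivity)
    rw [← hM, div_le_iff₀ hMk]
    have q3 : c' * (δ * (A.card : ℝ) ^ k) ≤ c ^ 2 / C ^ (k - 1) * (δ * (A.card : ℝ) ^ k) :=
      mul_le_mul_of_nonneg_right hc'2 (by positivity)
    have q4 : c ^ 2 / C ^ (k - 1) * (δ * (A.card : ℝ) ^ k) = c * δ * (c * (A.card : ℝ) ^ k) / C ^ (k - 1) := by
      ring
    have q5 : c * δ * (c * (A.card : ℝ) ^ k) / C ^ (k - 1) ≤ ((goodSubsets k x δ A).card : ℝ) * M ^ (k - 1) := by
      rw [div_le_iff₀ hCk]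
      linarith
    linarith

end Pool.Agent.L7h72.Old.SparseSetsSharpLowerHalf
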